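import Pool.Agent.ANO5.Fin.Gl
import Pool.Agent.ANO5.Lev.Coord
import Pool.Agent.ANO5.End.Concrete
import Pool.Agent.ANO5.A3.Tot.Point

/-!
# ANO5, module Fin: the contradiction from the results of the other modules

`nonvoid`: the points of a full type `w` with a given level `c` are countable, but they meet every
fibre `(z, y)` over the void factors and over `N`; so all `U i` are not empty and `N` is a point.
-/

set_option autoImplicit false

open scoped UpperHalfPlane MatrixGroups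
open Set Filter Topology

namespace Pool.Agent.ANO5.Fin

open Pool.Agent.ANO3 Pool.Agent.ANO3.Tree Pool.Agent.ANO5.A1 Pool.Agent.ANO5.A2 Pool.Agent.ANO5.A3
  Pool.Agent.ANO5.Lin Pool.Agent.ANO5.Lev Pool.Agent.ANO5.A3.End
open Pool.Agent.ANO5.A3.Tot (IsFull exists_isFull not_countable_uhp)

variable [TFib] {r : ℕ} {S : Fin r → SurfaceMap} {D : TData S} {D' : TData fun i => rev (S i)}
  {T₀ T : X r ≃ₜ X r} {F : ∀ i, Flat (S i)}

theorem exists_RV (h : Sit D D' T₀ T) (hU : ∀ i, FUnip (F i)) {w : Fin r → ℍ}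
    (hw : A3.IsType F w) : ∃ c, RV F D D' T₀ w c :=
  (dense_RV h hU hw).nonempty

theorem nonvoid (h : Sit D D' T₀ T) (hU : ∀ i, FUnip (F i))
    (hC : ∀ w, A3.IsType F w → ∀ c, RV F D D' T₀ w c →
      (NL F T (tu D T) (tu D' T.symm) w w c).Countable)
    (hP : ∀ w, IsFull F w → ∀ (c : VU D × VU D') (z : Fin r → ℍ) (y : TFib.base.W),
      ∃ x ∈ NL F T (tu D T) (tu D' T.symm) w w c, (∀ i, (F i).U = ∅ → x.1 i = z i) ∧
        x.2.1 = y) :
    (∀ i, (F i).U.Nonempty) ∧ Module.finrank ℝ TFib.base.V = 0 := by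
  obtain ⟨w, hw⟩ := exists_isFull F
  obtain ⟨c, hc⟩ := exists_RV h hU hw.isType
  have h1 := hC w hw.isType c hc
  constructor
  · intro i
    by_contra hi
    rw [not_nonempty_iff_eq_empty] at hi
    refine not_countable_uhp ((h1.image fun x => x.1 i).mono fun z _ => ?_)
    obtain ⟨x, hx, h2, -⟩ := hP w hw c (fun _ => z) (TFib.base.crd.symm 0)
    exact ⟨x, hx, h2 i hi⟩
  · by_contra h0
    have : Nontrivial TFib.base.V := Module.nontrivial_of_finrank_pos (R := ℝ)
      (Nat.pos_of_ne_zero h0)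
    obtain ⟨v, hv⟩ := exists_ne (0 : TFib.base.V)
    have h2 : (univ : Set ℝ).Countable := by
      have h3 : (((fun x : X r => x.2.1) '' NL F T (tu D T) (tu D' T.symm) w w c).preimage
          fun t : ℝ => TFib.base.crd.symm (t • v)).Countable := by
        refine (h1.image _).preimage fun t t' ht => ?_
        have h4 : t • v = t' • v := TFib.base.crd.symm.injective ht
        exact smul_left_injective ℝ hv h4
      refine h3.mono fun t _ => ?_
      obtain ⟨x, hx, -, h4⟩ := hP w hw c (fun _ => UpperHalfPlane.I)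
        (TFib.base.crd.symm (t • v))
      exact ⟨x, hx, h4⟩
    exact Cardinal.not_countable_real h2

/-- The coordinates of the tangent space. -/
theorem exists_coords (h : Sit D D' T₀ T) (h0 : Module.finrank ℝ TFib.base.V = 0) :
    Nonempty (E r ≃L[ℝ] ((Fin r → ℝ) × VU D) × ((Fin r → ℝ) × VU D')) := by
  refine ⟨ContinuousLinearEquiv.ofFinrankEq ?_⟩
  have h1 := finrank_VU h
  have h2 := finrank_V
  have h3 : Module.finrank ℝ (Fin r → ℂ) = r * 2 := by
    rw [Module.finrank_pi_fintype]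
    simp
  change Module.finrank ℝ ((Fin r → ℂ) × Fib.V) = _
  rw [Module.finrank_prod, Module.finrank_prod, Module.finrank_prod, Module.finrank_prod,
    Module.finrank_fin_fun, h3]
  omega

/-- The contradiction. -/
theorem assemble (hr : 0 < r ∨ 0 < Module.finrank ℝ TFib.base.V) (h : Sit D D' T₀ T)
    (N : ∀ i, NormalForm (S i)) (hU : ∀ i, FUnip (N i).flat)
    (hN : Module.finrank ℝ TFib.base.V = 0 → ∀ w, (∀ i, (N i).flat.Reg (w i)) → ∀ c,
      RV (fun i => (N i).flat) D D' T₀ w c →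
        ∃ q, NL (fun i => (N i).flat) T (tu D T) (tu D' T.symm) w w c = {q})
    (hC : ∀ w, A3.IsType (fun i => (N i).flat) w → ∀ c, RV (fun i => (N i).flat) D D' T₀ w c →
      (NL (fun i => (N i).flat) T (tu D T) (tu D' T.symm) w w c).Countable)
    (hP : ∀ w, IsFull (fun i => (N i).flat) w → ∀ (c : VU D × VU D') (z : Fin r → ℍ)
      (y : TFib.base.W), ∃ x ∈ NL (fun i => (N i).flat) T (tu D T) (tu D' T.symm) w w c,
        (∀ i, (N i).flat.U = ∅ → x.1 i = z i) ∧ x.2.1 = y)
    (hcpt : ∀ w, A3.IsType (fun i => (N i).flat) w → ∀ c, RV (fun i => (N i).flat) D D' T₀ w c →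
      Cocpt (fun i => (N i).flat) T (tu D T) (tu D' T.symm) w c)
    (hB : Bracket (fun i => (N i).flat) T (tu D T) (tu D' T.symm))
    (h1 : Module.finrank ℝ TFib.base.V = 0 → ∀ (E₁ E₂ : Type) [NormedAddCommGroup E₁]
      [NormedSpace ℝ E₁] [NormedAddCommGroup E₂] [NormedSpace ℝ E₂] [FiniteDimensional ℝ E₁]
      [FiniteDimensional ℝ E₂] [Nontrivial (E₁ × E₂)] (C₀ : E r ≃L[ℝ] E₁ × E₂)
      (w : Fin r → ℍ) (c : VU D × VU D'), (∀ i, (N i).flat.Reg (w i)) →
      ∀ Θ : Tgt r (VU D) (VU D') ≃L[ℝ] E₁ × E₂, Conn.Total C₀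
        (fun x => Θ (full (fun i => (N i).flat) T (tu D T) (tu D' T.symm) w c x)) 1)
    (hm : Module.finrank ℝ TFib.base.V = 0 → (∀ i, (N i).U.Nonempty) →
      ∀ w' w'' : Fin r → ℍ, (∀ i, (N i).flat.Reg (w' i)) →
      (∀ i, (N i).flat.Reg (w'' i)) → ∀ c' c'', RV (fun i => (N i).flat) D D' T₀ w' c' →
      RV (fun i => (N i).flat) D D' T₀ w'' c'' →
      (NL (fun i => (N i).flat) T (tu D T) (tu D' T.symm) w' w'' (c'.1, c''.2)).Nonempty →
        ∀ i, ∃ z, (N i).flat.du (w' i) z = 0 ∧ (N i).flat.ds (w'' i) z = 0) : False := by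
  obtain ⟨hne, h0⟩ := nonvoid (F := fun i => (N i).flat) h hU hC hP
  have hr' : 0 < r := hr.resolve_right (by omega)
  obtain ⟨i₀, -⟩ : ∃ i : Fin r, i = ⟨0, hr'⟩ := ⟨_, rfl⟩
  obtain ⟨v, hv, hcor, hsing⟩ := (N i₀).vertex (hne i₀)
  obtain ⟨b₀, hb₀⟩ := Flat.exists_corner (F := (N i₀).flat) hcor
  choose w hw using fun i => Flat.exists_reg (F := (N i).flat) (hne i)
  have e : Function.update w i₀ v i₀ = v := Function.update_self ..
  have hκ : A3.IsType (fun i => (N i).flat) (Function.update w i₀ v) := fun i => by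
    by_cases hi : i = i₀
    · subst hi
      rw [e]
      exact Or.inr hv
    · rw [Function.update_of_ne hi]
      exact Or.inl (hw i)
  obtain ⟨c, hc⟩ := exists_RV (F := fun i => (N i).flat) h hU hκ
  obtain ⟨C₀⟩ := exists_coords h h0
  have : Nontrivial (((Fin r → ℝ) × VU D) × ((Fin r → ℝ) × VU D')) :=
    ⟨((fun _ => 1, 0), 0), 0, fun h => by
      have h2 : (1 : ℝ) = 0 := congrFun (congrArg (fun q : ((Fin r → ℝ) × VU D) ×
        ((Fin r → ℝ) × VU D') => q.1.1) h) i₀
      exact one_ne_zero h2⟩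
  refine End.concrete (F := fun i => (N i).flat) h.set h.continuous_tu h.continuous_ts
    (ContinuousLinearEquiv.refl ℝ _) C₀ i₀ (κ := Function.update w i₀ v) (b₀ := b₀)
    ?_ ?_ ?_ (fun i hi => ?_) c (RV (fun i => (N i).flat) D D' T₀) (fun w hw => ?_) (hN h0)
    (hcpt _ hκ c hc) (hC _ hκ c hc) hB (fun w c hw Θ => h1 h0 _ _ C₀ w c hw Θ) (hm h0 hne)
  · rw [e]
    exact hv
  · rw [e]
    exact hb₀
  · rw [e]
    exact hsing
  · rw [Function.update_of_ne hi]
    exact hw i
  · exact dense_RV h hU fun i => Or.inl (hw i)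

end Pool.Agent.ANO5.Fin
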