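import Pool.Agent.ANO5.Lev.Level
import Pool.Agent.ANO5.Hyp.Skew

/-!
# ANO5, module Fin: the situation

`isUnit_det`: the translation by `v'` is the image of a deck transformation `g` under conjugation
with `T`, so also under that with the model map; `g` is the translation by a `v` with `A v = v'`.
`exists_sit`: the model map is a homeomorphism.
-/

set_option autoImplicit false

open scoped UpperHalfPlane MatrixGroups
open Set Filter Topology

namespace Pool.Agent.ANO5.Fin

open Pool.Agent.ANO (IsHyperbolicMatrix)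
open Pool.Agent.ANO3 Pool.Agent.ANO5.A1 Pool.Agent.ANO5.A2 Pool.Agent.ANO5.A3 Pool.Agent.ANO5.Lin
  Pool.Agent.ANO5.Lev
open Pool.Agent.ANO5.Tor (skew IsTwist B)
open Pool.Agent.ANO5.Hyp (sk dkT sk_comp skew_eq continuous_sk dkT_inj)

variable [TFib] {r : ℕ} {S : Fin r → SurfaceMap} {A : Matrix (Fin TFib.k) (Fin TFib.k) ℤ}
  {τ : B r → Fin TFib.k → ℝ} {T : X r ≃ₜ X r}

theorem surj_of_anosov (hT : IsAnosovLift (surf S) T) : Surj (surf S) T := fun g hg => by
  obtain ⟨g', hg', h⟩ := hT.2.2.2.1 g hg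
  exact ⟨g', hg', h⟩

theorem isUnit_det (hs : Surj (surf S) T) (hom : Homotopic (surf S) (skew S A τ) T) :
    IsUnit A.det := by
  rw [← Matrix.isUnit_iff_isUnit_det, ← Matrix.mulVec_surjective_iff_isUnit]
  intro v'
  obtain ⟨g, hg, h1⟩ := hs _ (Hyp.isDeck_iff.2 ⟨fun _ => 1, 1, v', fun i => (S i).Γ.one_mem,
    TFib.base.Γ.one_mem, rfl⟩)
  obtain ⟨g', hg', h2, h3⟩ := hom g hg
  have h4 : g' = dkT (fun _ => 1) 1 v' := by
    funext x
    have h5 := congrFun (h3.symm.trans h1) (T.symm x)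
    simp only [Function.comp_apply, Homeomorph.apply_symm_apply] at h5
    exact h5
  rw [h4] at h2
  obtain ⟨γ, δ, v, hγ, hδ, rfl⟩ := Hyp.isDeck_iff.1 hg
  refine ⟨v, ?_⟩
  obtain ⟨y⟩ : Nonempty TFib.base.W := ⟨TFib.base.crd.symm 0⟩
  obtain ⟨z, hz⟩ : ∃ z : Fin r → ℍ, z = fun _ => UpperHalfPlane.I := ⟨_, rfl⟩
  have h5 := congrFun h2 ((z, (y, 0)) : X r)
  have h6 : (fun i => γ i • z i) = z := by
    have h7 : (fun i => (S i).f (γ i • z i)) = fun i => (1 : SL(2, ℝ)) • (S i).f (z i) :=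
      congrArg Prod.fst h5
    funext i
    have h8 := congrFun h7 i
    rw [one_smul] at h8
    exact (S i).f.injective h8
  have h7 : δ y = y := congrArg (fun x : X r => x.2.1) h5
  have h8 := congrArg (fun x : X r => x.2.2) h5
  have h9 : Lin.lin A (fun j => (0 : Fin TFib.k → ℝ) j + (v j : ℝ)) +
      τ (fun i => γ i • z i, δ y) = fun j => (Lin.lin A 0 + τ (z, y)) j + (v' j : ℝ) := h8
  rw [h6, h7, map_zero, zero_add, add_comm] at h9
  have h10 : Lin.lin A (fun j => (v j : ℝ)) = fun j => (v' j : ℝ) := by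
    have h11 : (fun j => (0 : Fin TFib.k → ℝ) j + (v j : ℝ)) = fun j => (v j : ℝ) := by
      funext j
      rw [Pi.zero_apply, zero_add]
    rw [h11] at h9
    funext j
    have h12 := congrFun h9 j
    simp only [Pi.add_apply] at h12
    linarith
  have h13 : Lin.lin A (fun j => (v j : ℝ)) = fun j => ((A.mulVec v) j : ℝ) := by
    rw [lin_apply]
    funext j
    simp only [Matrix.mulVec, dotProduct, Matrix.map_apply, Int.cast_sum, Int.cast_mul]
  rw [h13] at h10
  funext j
  have h14 := congrFun h10 j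
  exact_mod_cast h14

/-- The model map is a homeomorphism. -/
theorem exists_homeo (hτ : Continuous τ) (hA : IsUnit A.det) :
    ∃ T₀ : X r ≃ₜ X r, ∀ x, T₀ x = skew S A τ x := by
  have h1 : A * A⁻¹ = 1 := Matrix.mul_nonsing_inv A hA
  have h2 : A⁻¹ * A = 1 := Matrix.nonsing_inv_mul A hA
  obtain ⟨σ, hσ⟩ : ∃ σ : (Fin r → ℍ) × TFib.base.W → (Fin TFib.k → ℝ),
      σ = fun q => -Lin.lin A⁻¹ (τ (fun i => (S i).f.symm (q.1 i), q.2)) := ⟨_, rfl⟩
  have hσc : Continuous σ := by
    rw [hσ]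
    refine ((Lin.lin A⁻¹).continuous.comp (hτ.comp ?_)).neg
    exact (continuous_pi fun i => (S i).f.symm.continuous.comp
      ((continuous_apply i).comp continuous_fst)).prodMk continuous_snd
  have hG : ∀ x : X r, sk (fun i => (S i).f.symm) id A⁻¹ σ (skew S A τ x) = x := fun x => by
    have h3 := congrFun (sk_comp (h' := fun i => (S i).f.symm) (h := fun i => (S i).f)
      (η' := id) (η := id) (A' := A⁻¹) (A := A) (σ' := σ) (σ := τ)) x
    rw [Function.comp_apply, ← skew_eq] at h3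
    rw [h3]
    refine Prod.ext (funext fun i => (S i).f.symm_apply_apply (x.1 i)) (Prod.ext rfl ?_)
    change Lin.lin (A⁻¹ * A) x.2.2 + (Lin.lin A⁻¹ (τ (x.1, x.2.1)) +
      σ (fun i => (S i).f (x.1 i), x.2.1)) = x.2.2
    rw [h2, lin_one, hσ]
    simp only [Homeomorph.symm_apply_apply, ContinuousLinearMap.id_apply]
    abel
  have hG' : ∀ x : X r, skew S A τ (sk (fun i => (S i).f.symm) id A⁻¹ σ x) = x := fun x => by
    have h3 := congrFun (sk_comp (h' := fun i => (S i).f) (h := fun i => (S i).f.symm)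
      (η' := id) (η := id) (A' := A) (A := A⁻¹) (σ' := τ) (σ := σ)) x
    rw [Function.comp_apply, ← skew_eq] at h3
    rw [h3]
    refine Prod.ext (funext fun i => (S i).f.apply_symm_apply (x.1 i)) (Prod.ext rfl ?_)
    change Lin.lin (A * A⁻¹) x.2.2 + (Lin.lin A (σ (x.1, x.2.1)) +
      τ (fun i => (S i).f.symm (x.1 i), x.2.1)) = x.2.2
    have h4 : Lin.lin A (σ (x.1, x.2.1)) = -τ (fun i => (S i).f.symm (x.1 i), x.2.1) := by
      rw [hσ]
      simp only [map_neg]
      rw [← ContinuousLinearMap.comp_apply, ← lin_mul, h1, lin_one]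
      rfl
    rw [h4, h1, lin_one]
    simp only [ContinuousLinearMap.id_apply]
    abel
  refine ⟨{ toFun := skew S A τ
            invFun := sk (fun i => (S i).f.symm) id A⁻¹ σ
            left_inv := hG
            right_inv := hG'
            continuous_toFun := ?_
            continuous_invFun := ?_ }, fun x => rfl⟩
  · rw [skew_eq]
    exact continuous_sk (fun i => (S i).f.continuous) continuous_id hτ
  · exact continuous_sk (fun i => (S i).f.symm.continuous) continuous_id hσc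

/-- The situation of the proof. -/
theorem exists_sit (hτ : IsTwist (surf S) τ) (hs : Surj (surf S) T)
    (hom : Homotopic (surf S) (skew S A τ) T) (hA : IsHyperbolicMatrix A) :
    ∃ (D : TData S) (D' : TData fun i => rev (S i)) (T₀ : X r ≃ₜ X r), D.A = A ∧ D.τ = τ ∧
      Sit D D' T₀ T := by
  obtain ⟨D, rfl, rfl⟩ := exists_tdata (S := S) A hτ
  obtain ⟨D', h1, h2⟩ := exists_inv D hA.1
  obtain ⟨T₀, hT₀⟩ := exists_homeo (S := S) hτ.cont hA.1
  refine ⟨D, D', T₀, rfl, rfl, ⟨⟨fun i x => ?_, ?_, hs⟩, hT₀, h2 T₀ hT₀, h1, hA⟩⟩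
  · rw [hT₀]
    rfl
  · have h3 : (T₀ : X r → X r) = skew S D.A D.τ := funext hT₀
    rw [h3]
    exact hom

end Pool.Agent.ANO5.Fin
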