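import Pool.Agent.ANO5.Fin.Assemble
import Pool.Agent.ANO5.A3.Tot.Torus

/-!
# ANO5, module Fin: the inputs of `assemble` from the module Tot
-/

set_option autoImplicit false

open scoped UpperHalfPlane MatrixGroups
open Set Filter Topology

namespace Pool.Agent.ANO5.Fin

open Pool.Agent.ANO3 Pool.Agent.ANO3.Tree Pool.Agent.ANO5.A1 Pool.Agent.ANO5.A2 Pool.Agent.ANO5.A3
  Pool.Agent.ANO5.Lin Pool.Agent.ANO5.Lev Pool.Agent.ANO5.A3.End
open Pool.Agent.ANO5.A3.Tot (IsFull)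

variable [TFib] {r : ℕ} {S : Fin r → SurfaceMap} {D : TData S} {D' : TData fun i => rev (S i)}
  {T₀ T : X r ≃ₜ X r} {F : ∀ i, Flat (S i)}

/-- The pair of data. -/
def pair (h : Sit D D' T₀ T) : TPair S T₀ := ⟨D, D', h.hyp, h.inv, h.model, h.model'⟩

theorem nontrivial_E (hr : 0 < r ∨ 0 < Module.finrank ℝ TFib.base.V) : Nontrivial (E r) := by
  rcases hr with hr | hr
  · exact ⟨(fun _ => 1, 0), 0, fun h => by
      have h2 : (1 : ℂ) = 0 := congrFun (congrArg Prod.fst h) ⟨0, hr⟩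
      exact one_ne_zero h2⟩
  · have : Nontrivial TFib.base.V := Module.nontrivial_of_finrank_pos (R := ℝ) hr
    obtain ⟨v, hv⟩ := exists_ne (0 : TFib.base.V)
    exact ⟨(0, (v, 0)), 0, fun h => hv (congrArg (fun q : E r => q.2.1) h)⟩

/-- The points of a full type with a given level meet every fibre. -/
theorem exists_point (hr : 0 < r ∨ 0 < Module.finrank ℝ TFib.base.V) (h : Sit D D' T₀ T)
    {w : Fin r → ℍ} (hw : IsFull F w) (c : VU D × VU D') (z : Fin r → ℍ) (y : TFib.base.W) :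
    ∃ x ∈ NL F T (tu D T) (tu D' T.symm) w w c, (∀ i, (F i).U = ∅ → x.1 i = z i) ∧
      x.2.1 = y := by
  have := nontrivial_E hr
  obtain ⟨x, hx, h1, h2, h3⟩ := Tot.exists_level_NN (F := F) (pair h) h.set hw z y
    ((c.1 : Fin TFib.k → ℝ) + (c.2 : Fin TFib.k → ℝ))
  obtain ⟨L, -, -, hL⟩ := exists_splitEquiv h
  have h4 : L.symm (tu D T x, tu D' T.symm x) = L.symm (c.1, c.2) := by
    rw [hL, hL]
    exact h3
  have h5 := L.symm.injective h4
  exact ⟨x, ⟨hx, congrArg Prod.fst h5, congrArg Prod.snd h5⟩, h1, h2⟩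

/-- The total degree of the coordinates. -/
theorem total_full (h : Sit D D' T₀ T) (h0 : Module.finrank ℝ TFib.base.V = 0)
    (E₁ E₂ : Type) [NormedAddCommGroup E₁] [NormedSpace ℝ E₁] [NormedAddCommGroup E₂]
    [NormedSpace ℝ E₂] [FiniteDimensional ℝ E₁] [FiniteDimensional ℝ E₂] [Nontrivial (E₁ × E₂)]
    (C₀ : E r ≃L[ℝ] E₁ × E₂) (w : Fin r → ℍ) (c : VU D × VU D')
    (hw : ∀ i, (F i).Reg (w i)) (Θ : Tgt r (VU D) (VU D') ≃L[ℝ] E₁ × E₂) :
    Conn.Total C₀ (fun x => Θ (full F T (tu D T) (tu D' T.symm) w c x)) 1 := by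
  obtain ⟨L, -, -, hL⟩ := exists_splitEquiv h
  exact Tot.total_full_self (F := F) (Module.finrank_zero_iff.1 h0) (pair h) h.set
    (J := L.symm) (TU' := tu D T) (TS' := tu D' T.symm) (fun x => hL _) C₀ Θ hw c.1 c.2

end Pool.Agent.ANO5.Fin
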