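import Pool.Agent.ANO5.Fin.Inputs
import Pool.Agent.ANO5.Hyp.Main
import Pool.Agent.ANO5.A3.Cnt.NL
import Pool.Agent.ANO5.A3.Cnt.One
import Pool.Agent.ANO5.A3.Cnt.Brk
import Pool.Agent.ANO5.A3.Conn.Apply
import Pool.Agent.ANO5.Typ.Cpt

/-!
# ANO5, module Fin: the main statement
-/

set_option autoImplicit false

open scoped UpperHalfPlane MatrixGroups
open Set Filter Topology

namespace Pool.Agent.ANO5

open Pool.Agent.ANO5.A1 Pool.Agent.ANO5.A2 Pool.Agent.ANO5.Tor Pool.Agent.ANO5.Lin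
  Pool.Agent.ANO5.Lev

theorem mainStatement : MainStatement := by
  intro _ r hr S hS A τ hτ T hT hom
  obtain ⟨N⟩ : Nonempty (∀ i, Normal (S i)) := ⟨fun i => (hS i).some⟩
  have hA := Hyp.isHyperbolic N hτ hT hom
  obtain ⟨D, D', T₀, -, -, h⟩ := Fin.exists_sit hτ (Fin.surj_of_anosov hT) hom hA
  have hU : ∀ i, FUnip (N i).toNormalForm.flat := fun i => Normal.funip (N i)
  have hcpt : ∀ w, A3.IsType (fun i => (N i).toNormalForm.flat) w → ∀ c,
      RV (fun i => (N i).toNormalForm.flat) D D' T₀ w c →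
        A3.End.Cocpt (fun i => (N i).toNormalForm.flat) T (tu D T) (tu D' T.symm) w c :=
    fun w hw c hc => Typ.cocpt N h hT hw hc
  have hN : Module.finrank ℝ TFib.base.V = 0 → ∀ w : Fin r → ℍ,
      (∀ i, (N i).toNormalForm.flat.Reg (w i)) → ∀ c,
        RV (fun i => (N i).toNormalForm.flat) D D' T₀ w c →
          ∃ q, A3.End.NL (fun i => (N i).toNormalForm.flat) T (tu D T) (tu D' T.symm) w w c =
            {q} := fun h0 w hw c hc =>
    A3.Cnt.single_NL (fun i => (N i).toNormalForm) h hT h0 hw (e := c) hc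
  refine Fin.assemble hr h (fun i => (N i).toNormalForm) hU hN (fun w hw c hc => ?_)
    (fun w hw c z y => Fin.exists_point hr h hw c z y) hcpt
    (A3.Cnt.bracket_NL (fun i => (N i).toNormalForm.flat) h hT)
    (fun h0 => Fin.total_full h h0)
    fun h0 _ w' w'' hw' hw'' c' c'' hc' hc'' hne i =>
      A3.Conn.meet h hT hU (hN h0) h0 hw' hw'' hc' hc'' hne i
  have hc' := hc
  obtain ⟨m, γ, δ, hl⟩ := hc'
  exact A3.Cnt.countable_NL (fun i => (N i).toNormalForm) h hT hc (hcpt w hw c hc)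
    (Typ.finite_shift N h hT hl)

end Pool.Agent.ANO5
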